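import Pool.Agent.Results.MP_a721b7_an.Characterization

/-!
# MP_a721b7_an: point functions inside intervals, for two sorts and all densities

For a relation `R` between two sets `A` (intervals) and `X` (points) and a linear order `L`, a
representation of `R` in `L` consists of functions `f h : A → L` and `g : X → L` with
`R a x ↔ f a < g x < h a`.  We determine, for every infinite cardinal `κ`, the relations which have
a representation in a linear order with an order-dense subset of cardinality at most `κ`, those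
which have a representation in `ℝ`, and those which have a representation in some linear order.
-/

open Set Relation Cardinal

universe u v

namespace Pool.Agent.Results.MP_a721b7_an.AllDensities

variable {A X : Type u}

/-- A reversal of length `n`: points `a 0, …, a n`, `b 0, …, b n` of `X` and elements
`x 0, …, x (n-1)` of `A` with `a 0 ≠ b 0`, `a n = b 0`, `b n = a 0` in which, for each `i < n`,
* either `b (i+1) = b i` and `R(x i)` contains `a i` and `a (i+1)` but not `b i`,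
* or `a (i+1) = a i` and `R(x i)` contains `b i` and `b (i+1)` but not `a i`. -/
def IsReversal (R : A → X → Prop) (n : ℕ) (a b : ℕ → X) (x : ℕ → A) : Prop :=
  a 0 ≠ b 0 ∧ a n = b 0 ∧ b n = a 0 ∧ ∀ i < n,
    (b (i + 1) = b i ∧ R (x i) (a i) ∧ R (x i) (a (i + 1)) ∧ ¬ R (x i) (b i)) ∨
    (a (i + 1) = a i ∧ R (x i) (b i) ∧ R (x i) (b (i + 1)) ∧ ¬ R (x i) (a i))

/-- The relation `R` contains no reversal, of any finite length. -/
def NoReversal (R : A → X → Prop) : Prop :=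
  ∀ (n : ℕ) (a b : ℕ → X) (x : ℕ → A), ¬ IsReversal R n a b x

/-- There is a set `Z` of at most `κ` elements of `A` such that, whenever `R a x`, there are `z`,
`z'` in `Z` with `x ∈ R(z) ∩ R(z') ⊆ R(a)`. -/
def Base (R : A → X → Prop) (κ : Cardinal.{u}) : Prop :=
  ∃ Z : Set A, #Z ≤ κ ∧ ∀ a x, R a x →
    ∃ z ∈ Z, ∃ z' ∈ Z, R z x ∧ R z' x ∧ ∀ w, R z w → R z' w → R a w

/-- `R` has a representation in the linear order `L`. -/
def Rep (R : A → X → Prop) (L : Type v) [LinearOrder L] : Prop :=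
  ∃ (f h : A → L) (g : X → L), ∀ a x, R a x ↔ f a < g x ∧ g x < h a

/-- `R` has a representation in a linear order `L` with a subset `D` of cardinality at most `κ`
that has an element strictly between any two elements of `L`. -/
def StrictRep (R : A → X → Prop) (κ : Cardinal.{u}) : Prop :=
  ∃ (L : Type u) (_ : LinearOrder L) (D : Set L), #D ≤ κ ∧
    (∀ a b : L, a < b → ∃ d ∈ D, a < d ∧ d < b) ∧ Rep R L

/-- `R` has a representation in a linear order `L` with a subset `D` of cardinality at most `κ`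
such that whenever `a < b` in `L` there is `d ∈ D` with `a ≤ d ≤ b`. -/
def WeakRep (R : A → X → Prop) (κ : Cardinal.{u}) : Prop :=
  ∃ (L : Type u) (_ : LinearOrder L) (D : Set L), #D ≤ κ ∧
    (∀ a b : L, a < b → ∃ d ∈ D, a ≤ d ∧ d ≤ b) ∧ Rep R L

/-! ### The finite condition -/

/-- An elementary forcing step between ordered pairs of points. -/
def Step (R : A → X → Prop) (p q : X × X) : Prop :=
  ∃ x : A, (R x p.1 ∧ R x q.1 ∧ ¬ R x p.2 ∧ q.2 = p.2) ∨
    (R x p.2 ∧ R x q.2 ∧ ¬ R x p.1 ∧ q.1 = p.1)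

theorem exists_seq {R : A → X → Prop} (x0 : A) {p q : X × X}
    (h : Relation.ReflTransGen (Step R) p q) :
    ∃ (n : ℕ) (a b : ℕ → X) (x : ℕ → A), a 0 = p.1 ∧ b 0 = p.2 ∧ a n = q.1 ∧ b n = q.2 ∧ ∀ i < n,
      (b (i + 1) = b i ∧ R (x i) (a i) ∧ R (x i) (a (i + 1)) ∧ ¬ R (x i) (b i)) ∨
      (a (i + 1) = a i ∧ R (x i) (b i) ∧ R (x i) (b (i + 1)) ∧ ¬ R (x i) (a i)) := by
  induction h with
  | refl =>
    exact ⟨0, fun _ => p.1, fun _ => p.2, fun _ => x0, rfl, rfl, rfl, rfl,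
      fun i hi => absurd hi (Nat.not_lt_zero i)⟩
  | @tail q r _ hqr ih =>
    obtain ⟨n, a, b, x, h1, h2, h3, h4, h5⟩ := ih
    obtain ⟨x', hx'⟩ := hqr
    refine ⟨n + 1, fun i => if i ≤ n then a i else r.1, fun i => if i ≤ n then b i else r.2,
      fun i => if i < n then x i else x', ?_, ?_, ?_, ?_, ?_⟩
    · show (if 0 ≤ n then a 0 else r.1) = p.1
      rw [if_pos (Nat.zero_le n), h1]
    · show (if 0 ≤ n then b 0 else r.2) = p.2
      rw [if_pos (Nat.zero_le n), h2]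
    · show (if n + 1 ≤ n then a (n + 1) else r.1) = r.1
      rw [if_neg (Nat.not_succ_le_self n)]
    · show (if n + 1 ≤ n then b (n + 1) else r.2) = r.2
      rw [if_neg (Nat.not_succ_le_self n)]
    · intro i hi
      show ((if i + 1 ≤ n then b (i + 1) else r.2) = (if i ≤ n then b i else r.2) ∧
          R (if i < n then x i else x') (if i ≤ n then a i else r.1) ∧
          R (if i < n then x i else x') (if i + 1 ≤ n then a (i + 1) else r.1) ∧
          ¬ R (if i < n then x i else x') (if i ≤ n then b i else r.2)) ∨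
        ((if i + 1 ≤ n then a (i + 1) else r.1) = (if i ≤ n then a i else r.1) ∧
          R (if i < n then x i else x') (if i ≤ n then b i else r.2) ∧
          R (if i < n then x i else x') (if i + 1 ≤ n then b (i + 1) else r.2) ∧
          ¬ R (if i < n then x i else x') (if i ≤ n then a i else r.1))
      rcases Nat.lt_or_ge i n with hin | hin
      · rw [if_pos (show i + 1 ≤ n from hin), if_pos hin.le, if_pos hin, if_pos hin.le,
          if_pos (show i + 1 ≤ n from hin)]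
        exact h5 i hin
      · have e : i = n := le_antisymm (Nat.lt_succ_iff.1 hi) hin
        subst e
        rw [if_neg (Nat.not_succ_le_self i), if_pos (le_refl i), if_neg (lt_irrefl i),
          if_pos (le_refl i), if_neg (Nat.not_succ_le_self i), h3, h4]
        rcases hx' with ⟨c1, c2, c3, c4⟩ | ⟨c1, c2, c3, c4⟩
        · exact Or.inl ⟨c4, c1, c2, c3⟩
        · exact Or.inr ⟨c4, c1, c2, c3⟩

theorem noReversal_iff (R : A → X → Prop) : NoReversal R ↔
    ∀ a b, a ≠ b → ¬ Relation.ReflTransGen (Step R) (a, b) (b, a) := by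
  constructor
  · intro h a b hab hs
    have hA : Nonempty A := by
      rcases Relation.ReflTransGen.cases_head hs with e | ⟨c, ⟨x, -⟩, -⟩
      · exact absurd (congrArg Prod.fst e) hab
      · exact ⟨x⟩
    obtain ⟨n, u, v, x, h1, h2, h3, h4, h5⟩ := exists_seq (Classical.choice hA) hs
    refine h n u v x ⟨?_, ?_, ?_, h5⟩
    · rw [h1, h2]; exact hab
    · rw [h3, h2]
    · rw [h4, h1]
  · rintro h n a b x ⟨h1, h2, h3, h4⟩
    have key : ∀ i, i ≤ n → Relation.ReflTransGen (Step R) (a 0, b 0) (a i, b i) := by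
      intro i
      induction i with
      | zero => intro _; exact Relation.ReflTransGen.refl
      | succ i ih =>
        intro hi
        refine (ih (Nat.le_of_succ_le hi)).tail ⟨x i, ?_⟩
        rcases h4 i hi with ⟨c1, c2, c3, c4⟩ | ⟨c1, c2, c3, c4⟩
        · exact Or.inl ⟨c2, c3, c4, c1⟩
        · exact Or.inr ⟨c2, c3, c4, c1⟩
    have := key n le_rfl
    rw [h2, h3] at this
    exact h _ _ h1 this

theorem noReversal_of_rep {L : Type v} [LinearOrder L] {R : A → X → Prop} (hR : Rep R L) :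
    NoReversal R := by
  rw [noReversal_iff]
  obtain ⟨f, h, g, hR⟩ := hR
  have key : ∀ p q, Relation.ReflTransGen (Step R) p q → p = q ∨
      ((g p.1 < g p.2 ∧ g q.1 < g q.2) ∨ (g p.2 < g p.1 ∧ g q.2 < g q.1)) := by
    intro p q hpq
    induction hpq with
    | refl => exact Or.inl rfl
    | @tail q q' h1 h2 ih =>
      right
      obtain ⟨x, hx⟩ := h2
      -- the step preserves the sign
      have hs : (g q.1 < g q.2 ∧ g q'.1 < g q'.2) ∨ (g q.2 < g q.1 ∧ g q'.2 < g q'.1) := by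
        rcases hx with ⟨a1, a2, a3, a4⟩ | ⟨a1, a2, a3, a4⟩
        · rw [hR] at a1 a2 a3
          rw [a4]
          by_cases hb : f x < g q.2
          · have hb2 : h x ≤ g q.2 := by
              by_contra hlt
              exact a3 ⟨hb, not_le.1 hlt⟩
            exact Or.inl ⟨a1.2.trans_le hb2, a2.2.trans_le hb2⟩
          · rw [not_lt] at hb
            exact Or.inr ⟨hb.trans_lt a1.1, hb.trans_lt a2.1⟩
        · rw [hR] at a1 a2 a3
          rw [a4]
          by_cases hb : f x < g q.1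
          · have hb2 : h x ≤ g q.1 := by
              by_contra hlt
              exact a3 ⟨hb, not_le.1 hlt⟩
            exact Or.inr ⟨a1.2.trans_le hb2, a2.2.trans_le hb2⟩
          · rw [not_lt] at hb
            exact Or.inl ⟨hb.trans_lt a1.1, hb.trans_lt a2.1⟩
      rcases ih with rfl | ih
      · exact hs
      · rcases ih with ⟨i1, i2⟩ | ⟨i1, i2⟩
        · rcases hs with ⟨s1, s2⟩ | ⟨s1, s2⟩
          · exact Or.inl ⟨i1, s2⟩
          · exact absurd i2 (not_lt.2 s1.le)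
        · rcases hs with ⟨s1, s2⟩ | ⟨s1, s2⟩
          · exact absurd i2 (not_lt.2 s1.le)
          · exact Or.inr ⟨i1, s2⟩
  intro a b hab hpq
  rcases key _ _ hpq with h1 | ⟨h1, h2⟩ | ⟨h1, h2⟩
  · exact hab (congrArg Prod.fst h1)
  · exact absurd h1 (not_lt.2 h2.le)
  · exact absurd h1 (not_lt.2 h2.le)

theorem fo_iff (R : A → X → Prop) (p q : X × X) :
    Characterization.Fo (Set.range (fun x => {y | R x y})) univ p q ↔
      Relation.ReflTransGen (Step R) p q := by
  have e : Characterization.St (Set.range (fun x => {y | R x y})) univ = Step R := by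
    funext p q
    apply propext
    constructor
    · rintro ⟨-, -, -, -, S, ⟨x, rfl⟩, h⟩
      exact ⟨x, h⟩
    · rintro ⟨x, h⟩
      exact ⟨trivial, trivial, trivial, trivial, _, ⟨x, rfl⟩, h⟩
  show Relation.ReflTransGen _ p q ↔ _
  rw [e]

/-- If there is no reversal, there is a linear order on `X` with all `R(a)` convex. -/
theorem exists_linearOrder {R : A → X → Prop} (h1 : NoReversal R) :
    ∃ _ : LinearOrder X, ∀ a (x y z : X), x < y → y < z → R a x → R a z → R a y := by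
  classical
  obtain ⟨lt, ord⟩ := Characterization.exists_order (Set.range (fun x => {y | R x y}))
    (fun a b hab h => (noReversal_iff R).1 h1 a b hab ((fo_iff R _ _).1 h))
  have : IsStrictTotalOrder X lt :=
    { irrefl := fun x => ord.irrefl x trivial
      trans := fun x y z => ord.trans x trivial y trivial z trivial
      trichotomous := fun x y hxy hyx => by
        by_contra hne
        rcases ord.total x trivial y trivial hne with h | h
        · exact hxy h
        · exact hyx h }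
  refine ⟨linearOrderOfSTO lt, ?_⟩
  intro a x y z hxy hyz hx hz
  exact ord.convex _ ⟨a, rfl⟩ x trivial y trivial z trivial hxy hyz hx hz


/-! ### Sufficiency: a linear order made from initial segments -/

/-- Lower sets without a greatest element. -/
def OL (P : Type u) [LinearOrder P] : Type u :=
  {U : LowerSet P // ∀ p ∈ U, ∃ p' ∈ U, p < p'}

noncomputable instance (P : Type u) [LinearOrder P] : LinearOrder (OL P) := by
  unfold OL
  infer_instance

theorem OL.le_iff {P : Type u} [LinearOrder P] {U V : OL P} :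
    U ≤ V ↔ ∀ p, p ∈ U.1 → p ∈ V.1 := Iff.rfl

theorem OL.lt_iff {P : Type u} [LinearOrder P] {U V : OL P} :
    U < V ↔ ∃ p, p ∈ V.1 ∧ p ∉ U.1 := by
  rw [← not_le, OL.le_iff]
  push Not
  rfl

/-- The open lower set below a point of a densely ordered set. -/
def OL.below {P : Type u} [LinearOrder P] [DenselyOrdered P] (p : P) : OL P :=
  ⟨LowerSet.Iio p, fun q hq => by
    obtain ⟨r, h1, h2⟩ := exists_between (LowerSet.mem_Iio_iff.1 hq)
    exact ⟨r, LowerSet.mem_Iio_iff.2 h2, h1⟩⟩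

theorem OL.dense {P : Type u} [LinearOrder P] [DenselyOrdered P] {U V : OL P} (h : U < V) :
    ∃ d ∈ Set.range (OL.below (P := P)), U < d ∧ d < V := by
  obtain ⟨p, hp, hp'⟩ := OL.lt_iff.1 h
  obtain ⟨q, hq, hpq⟩ := V.2 p hp
  refine ⟨OL.below q, ⟨q, rfl⟩, OL.lt_iff.2 ⟨p, LowerSet.mem_Iio_iff.2 hpq, hp'⟩,
    OL.lt_iff.2 ⟨q, hq, ?_⟩⟩
  exact fun h => lt_irrefl q (LowerSet.mem_Iio_iff.1 h)

/-- The open lower set of `F ×ₗ ℚ` made of the fibres over the elements with property `T`. -/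
def OL.fib {F : Type u} [LinearOrder F] (T : F → Prop) (hT : ∀ c c', c' ≤ c → T c → T c') :
    OL (F ×ₗ ℚ) :=
  ⟨⟨{p | T (ofLex p).1}, fun _ _ hqp hp => hT _ _ (Prod.Lex.monotone_fst_ofLex hqp) hp⟩,
    fun p hp => ⟨toLex ((ofLex p).1, (ofLex p).2 + 1), hp,
      Prod.Lex.lt_iff.2 (Or.inr ⟨rfl, lt_add_one _⟩)⟩⟩

theorem OL.fib_le {F : Type u} [LinearOrder F] {T T' : F → Prop}
    {hT : ∀ c c', c' ≤ c → T c → T c'} {hT' : ∀ c c', c' ≤ c → T' c → T' c'}
    (h : ∀ c, T c → T' c) : OL.fib T hT ≤ OL.fib T' hT' :=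
  OL.le_iff.2 fun _ hp => h _ hp

theorem OL.fib_lt {F : Type u} [LinearOrder F] {T T' : F → Prop}
    {hT : ∀ c c', c' ≤ c → T c → T c'} {hT' : ∀ c c', c' ≤ c → T' c → T' c'}
    {c : F} (h1 : T' c) (h2 : ¬ T c) : OL.fib T hT < OL.fib T' hT' :=
  OL.lt_iff.2 ⟨toLex (c, 0), h1, h2⟩

/-- Points below all elements of `R(a)`. -/
def Lo [LinearOrder X] (R : A → X → Prop) (a : A) : LowerSet X :=
  ⟨{w | ∀ u, R a u → w < u}, fun _ _ hqp hp u hu => lt_of_le_of_lt hqp (hp u hu)⟩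

/-- Points below some element of `R(a)`. -/
def Hi [LinearOrder X] (R : A → X → Prop) (a : A) : LowerSet X :=
  ⟨{w | ∃ u, R a u ∧ w ≤ u}, fun _ _ hqp ⟨u, hu, hp⟩ => ⟨u, hu, le_trans hqp hp⟩⟩

theorem strictRep_of {R : A → X → Prop} {κ : Cardinal.{u}} (hκ : ℵ₀ ≤ κ) (h1 : NoReversal R)
    (h2 : Base R κ) : StrictRep R κ := by
  classical
  obtain ⟨_, conv⟩ := exists_linearOrder h1
  obtain ⟨Z, hZ, hbase⟩ := h2
  have dich : ∀ a w, ¬ R a w → w ∈ Lo R a ∨ w ∉ Hi R a := by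
    intro a w hw
    by_contra hcon
    rw [not_or, not_not] at hcon
    obtain ⟨n1, u, hu, hwu⟩ := hcon
    have n2 : ∃ v, R a v ∧ v ≤ w := by
      by_contra hc
      push Not at hc
      exact n1 (fun v hv => hc v hv)
    obtain ⟨v, hv, hvw⟩ := n2
    rcases hvw.eq_or_lt with e | e
    · exact hw (e ▸ hv)
    · rcases hwu.eq_or_lt with e' | e'
      · exact hw (e' ▸ hu)
      · exact hw (conv a v w u e e' hv hu)
  let F : Set (LowerSet X) := (Lo R '' Z) ∪ (Hi R '' Z)
  have hF : #F ≤ κ := by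
    refine (mk_union_le _ _).trans ?_
    refine (add_le_add (mk_image_le.trans hZ) (mk_image_le.trans hZ)).trans ?_
    exact (add_eq_self hκ).le
  let G : X → OL (F ×ₗ ℚ) := fun w => OL.fib (fun c : F => w ∉ c.1)
    (fun c c' hc hw hw' => hw (hc hw'))
  let f : A → OL (F ×ₗ ℚ) := fun a => OL.fib (fun c : F => ∃ w ∈ Lo R a, w ∉ c.1)
    (fun c c' hc ⟨w, hwa, hw⟩ => ⟨w, hwa, fun hw' => hw (hc hw')⟩)
  let h : A → OL (F ×ₗ ℚ) := fun a => OL.fib (fun c : F => ∀ w, w ∉ Hi R a → w ∉ c.1)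
    (fun c c' hc hT w hwa hw' => hT w hwa (hc hw'))
  refine ⟨OL (F ×ₗ ℚ), inferInstance, Set.range OL.below, ?_, fun a b hab => OL.dense hab,
    f, h, G, ?_⟩
  · refine mk_range_le.trans ?_
    have e : #(F ×ₗ ℚ) = #F * ℵ₀ := by
      have e1 : #(F ×ₗ ℚ) = #(F × ℚ) := rfl
      rw [e1, mk_prod, Cardinal.mkRat, lift_aleph0]
      rw [Cardinal.lift_uzero]
    rw [e]
    exact (mul_le_mul' hF hκ).trans (mul_eq_self hκ).le
  intro a x
  constructor
  · intro hax
    obtain ⟨z, hz, z', hz', r1, r2, r3⟩ := hbase a x hax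
    have xHi : ∀ b, R b x → x ∈ Hi R b := fun b hb => ⟨x, hb, le_rfl⟩
    have xLo : ∀ b, R b x → x ∉ Lo R b := fun b hb hx => lt_irrefl x (hx x hb)
    constructor
    · -- the larger of `Lo z`, `Lo z'` separates `Lo a` and `x`
      have hsub : ∀ w ∈ Lo R a, w ∈ Lo R z ∨ w ∈ Lo R z' := by
        intro w hw
        have hwx : w < x := hw x hax
        have hwa : ¬ R a w := fun h => lt_irrefl w (hw w h)
        have : ¬ R z w ∨ ¬ R z' w := by
          by_contra hc
          rw [not_or, not_not, not_not] at hc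
          exact hwa (r3 w hc.1 hc.2)
        rcases this with h | h
        · rcases dich z w h with h' | h'
          · exact Or.inl h'
          · exact absurd ((Hi R z).lower hwx.le (xHi z r1)) h'
        · rcases dich z' w h with h' | h'
          · exact Or.inr h'
          · exact absurd ((Hi R z').lower hwx.le (xHi z' r2)) h'
      rcases le_total (Lo R z) (Lo R z') with hle | hle
      · refine OL.fib_lt (c := ⟨Lo R z', Or.inl ⟨z', hz', rfl⟩⟩) (xLo z' r2) ?_
        rintro ⟨w, hwa, hw⟩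
        rcases hsub w hwa with h | h
        · exact hw (hle h)
        · exact hw h
      · refine OL.fib_lt (c := ⟨Lo R z, Or.inl ⟨z, hz, rfl⟩⟩) (xLo z r1) ?_
        rintro ⟨w, hwa, hw⟩
        rcases hsub w hwa with h | h
        · exact hw h
        · exact hw (hle h)
    · have hsub : ∀ w, w ∉ Hi R a → w ∉ Hi R z ∨ w ∉ Hi R z' := by
        intro w hw
        have hwx : x < w := by
          by_contra hc
          exact hw ⟨x, hax, not_lt.1 hc⟩
        have hwa : ¬ R a w := fun h => hw ⟨w, h, le_rfl⟩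
        have : ¬ R z w ∨ ¬ R z' w := by
          by_contra hc
          rw [not_or, not_not, not_not] at hc
          exact hwa (r3 w hc.1 hc.2)
        rcases this with h | h
        · rcases dich z w h with h' | h'
          · exact absurd ((Lo R z).lower hwx.le h') (xLo z r1)
          · exact Or.inl h'
        · rcases dich z' w h with h' | h'
          · exact absurd ((Lo R z').lower hwx.le h') (xLo z' r2)
          · exact Or.inr h'
      rcases le_total (Hi R z) (Hi R z') with hle | hle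
      · refine OL.fib_lt (c := ⟨Hi R z, Or.inr ⟨z, hz, rfl⟩⟩) ?_ (fun h => h (xHi z r1))
        intro w hwa hw
        rcases hsub w hwa with h | h
        · exact h hw
        · exact h (hle hw)
      · refine OL.fib_lt (c := ⟨Hi R z', Or.inr ⟨z', hz', rfl⟩⟩) ?_ (fun h => h (xHi z' r2))
        intro w hwa hw
        rcases hsub w hwa with h | h
        · exact h (hle hw)
        · exact h hw
  · rintro ⟨i1, i2⟩
    by_contra hax
    rcases dich a x hax with h' | h'
    · exact absurd i1 (not_lt.2 (OL.fib_le (fun c hc => ⟨x, h', hc⟩)))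
    · exact absurd i2 (not_lt.2 (OL.fib_le (fun c hc => hc x h')))

/-! ### Necessity of the base -/

/-- One element for every satisfiable index. -/
theorem pick {ι : Type u} {κ : Cardinal.{u}} (hι : #ι ≤ κ) (Q : ι → A → Prop) :
    ∃ Z : Set A, #Z ≤ κ ∧ (∀ z ∈ Z, ∃ i, Q i z) ∧ ∀ i, (∃ z, Q i z) → ∃ z ∈ Z, Q i z := by
  refine ⟨Set.range (fun i : {i // ∃ z, Q i z} => Classical.choose i.2), ?_, ?_, ?_⟩
  · exact mk_range_le.trans ((mk_subtype_le _).trans hι)
  · rintro z ⟨i, rfl⟩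
    exact ⟨i.1, Classical.choose_spec i.2⟩
  · intro i hi
    exact ⟨_, ⟨⟨i, hi⟩, rfl⟩, Classical.choose_spec hi⟩

theorem exists_right {L : Type u} [LinearOrder L] {κ : Cardinal.{u}} (hκ : ℵ₀ ≤ κ) {D : Set L}
    (hD : #D ≤ κ) (hd : ∀ a b : L, a < b → ∃ d ∈ D, a ≤ d ∧ d ≤ b) (S : Set A) (f : A → L) :
    ∃ Z ⊆ S, #Z ≤ κ ∧ ∀ a ∈ S, ∀ t, f a < t → ∃ z ∈ Z, f a ≤ f z ∧ f z < t := by
  let Q : ((D × D) ⊕ (D × D)) ⊕ (D ⊕ D) → A → Prop := Sum.elim
    (Sum.elim (fun p z => z ∈ S ∧ p.1.1 ≤ f z ∧ f z < p.2.1)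
      (fun p z => z ∈ S ∧ p.1.1 ≤ f z ∧ f z ≤ p.2.1))
    (Sum.elim (fun p z => z ∈ S ∧ f z = p.1)
      (fun p z => z ∈ S ∧ f z < p.1 ∧ ∀ a' ∈ S, f a' < p.1 → f a' ≤ f z))
  have hι : #(((D × D) ⊕ (D × D)) ⊕ (D ⊕ D)) ≤ κ := by
    have e1 : #(D × D) ≤ κ := by
      have : #(D × D) = #D * #D := mul_def _ _ |>.symm
      rw [this]
      exact (mul_le_mul' hD hD).trans (mul_eq_self hκ).le
    have e2 : ∀ s t : Type u, #s ≤ κ → #t ≤ κ → #(s ⊕ t) ≤ κ := by
      intro s t hs ht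
      rw [← add_def]
      exact (add_le_add hs ht).trans (add_eq_self hκ).le
    exact e2 _ _ (e2 _ _ e1 e1) (e2 _ _ hD hD)
  obtain ⟨Z, hZ, hZQ, hpick⟩ := pick (A := A) hι Q
  refine ⟨Z, ?_, hZ, ?_⟩
  · intro z hz
    obtain ⟨i, hi⟩ := hZQ z hz
    rcases i with (i | i) | (i | i)
    · exact hi.1
    · exact hi.1
    · exact hi.1
    · exact hi.1
  · intro a ha t ht
    by_cases hc : ∃ a' ∈ S, f a < f a' ∧ f a' < t
    · obtain ⟨a', ha', h1, h2⟩ := hc
      obtain ⟨p, hp, p1, p2⟩ := hd _ _ h1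
      obtain ⟨r, hr, r1, r2⟩ := hd _ _ h2
      rcases r2.eq_or_lt with e | e
      · obtain ⟨z, hz, hzQ⟩ := hpick (Sum.inl (Sum.inl (⟨p, hp⟩, ⟨r, hr⟩)))
          ⟨a', ha', p2, e ▸ h2⟩
        exact ⟨z, hz, p1.trans hzQ.2.1, e ▸ hzQ.2.2⟩
      · obtain ⟨z, hz, hzQ⟩ := hpick (Sum.inl (Sum.inr (⟨p, hp⟩, ⟨r, hr⟩)))
          ⟨a', ha', p2, r1⟩
        exact ⟨z, hz, p1.trans hzQ.2.1, lt_of_le_of_lt hzQ.2.2 e⟩
    · push Not at hc
      obtain ⟨d, hdD, d1, d2⟩ := hd _ _ ht
      rcases d1.eq_or_lt with e | e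
      · obtain ⟨z, hz, hzQ⟩ := hpick (Sum.inr (Sum.inl ⟨d, hdD⟩)) ⟨a, ha, e⟩
        have e' : f z = f a := hzQ.2.trans e.symm
        exact ⟨z, hz, e'.ge, e'.le.trans_lt ht⟩
      · have hmax : ∀ a' ∈ S, f a' < d → f a' ≤ f a := by
          intro a' ha' h1
          by_contra h2
          exact absurd (h1.trans_le d2) (not_lt.2 (hc a' ha' (not_le.1 h2)))
        obtain ⟨z, hz, hzQ⟩ := hpick (Sum.inr (Sum.inr ⟨d, hdD⟩)) ⟨a, ha, e, hmax⟩
        exact ⟨z, hz, hzQ.2.2 a ha e, (hmax z hzQ.1 hzQ.2.1).trans_lt ht⟩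

theorem half {L : Type u} [LinearOrder L] {κ : Cardinal.{u}} (hκ : ℵ₀ ≤ κ) {D : Set L}
    (hD : #D ≤ κ) (hd : ∀ a b : L, a < b → ∃ d ∈ D, a ≤ d ∧ d ≤ b) (f h : A → L) :
    ∃ Z : Set A, #Z ≤ κ ∧ ∀ a t, f a < t → t < h a → ∃ z ∈ Z, f a ≤ f z ∧ f z < t ∧ t < h z := by
  have h1 := fun d : D => exists_right hκ hD hd {a | f a < d.1 ∧ d.1 < h a} f
  have h2 := fun d : D => exists_right hκ hD hd {a | f a < d.1 ∧ d.1 ≤ h a} f
  choose Z1 a1 b1 c1 using h1
  choose Z2 a2 b2 c2 using h2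
  have key : ∀ Z : D → Set A, (∀ d, #(Z d) ≤ κ) → #(⋃ d, Z d : Set A) ≤ κ := by
    intro Z hZ
    refine (mk_iUnion_le _).trans ?_
    exact (mul_le_mul' hD (ciSup_le' hZ)).trans (mul_eq_self hκ).le
  refine ⟨(⋃ d, Z1 d) ∪ (⋃ d, Z2 d), ?_, ?_⟩
  · refine (mk_union_le _ _).trans ?_
    exact (add_le_add (key Z1 b1) (key Z2 b2)).trans (add_eq_self hκ).le
  · intro a t h3 h4
    obtain ⟨d, hdD, d1, d2⟩ := hd _ _ h4
    rcases d2.eq_or_lt with e | e
    · obtain ⟨z, hz, z1, z2⟩ := c2 ⟨d, hdD⟩ a ⟨h3.trans_le d1, d2⟩ t h3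
      refine ⟨z, Or.inr (Set.mem_iUnion.2 ⟨_, hz⟩), z1, z2, ?_⟩
      exact (e ▸ h4 : t < d).trans_le (a2 _ hz).2
    · obtain ⟨z, hz, z1, z2⟩ := c1 ⟨d, hdD⟩ a ⟨h3.trans_le d1, e⟩ t h3
      refine ⟨z, Or.inl (Set.mem_iUnion.2 ⟨_, hz⟩), z1, z2, ?_⟩
      exact d1.trans_lt (a1 _ hz).2

theorem base_of_weakRep {R : A → X → Prop} {κ : Cardinal.{u}} (hκ : ℵ₀ ≤ κ) (hR : WeakRep R κ) :
    Base R κ := by
  obtain ⟨L, _, D, hD, hd, f, h, g, hR⟩ := hR
  obtain ⟨Z1, b1, c1⟩ := half hκ hD hd f h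
  have hd' : ∀ a b : Lᵒᵈ, a < b → ∃ d ∈ OrderDual.ofDual ⁻¹' D, a ≤ d ∧ d ≤ b := by
    intro a b hab
    obtain ⟨d, hdD, d1, d2⟩ := hd (OrderDual.ofDual b) (OrderDual.ofDual a) hab
    exact ⟨OrderDual.toDual d, hdD, d2, d1⟩
  obtain ⟨Z2, b2, c2⟩ := half (L := Lᵒᵈ) hκ (D := OrderDual.ofDual ⁻¹' D) hD hd'
    (fun a => OrderDual.toDual (h a)) (fun a => OrderDual.toDual (f a))
  refine ⟨Z1 ∪ Z2, ?_, ?_⟩
  · exact (mk_union_le _ _).trans ((add_le_add b1 b2).trans (add_eq_self hκ).le)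
  · intro a x hax
    rw [hR] at hax
    obtain ⟨z, hz, z1, z2, z3⟩ := c1 a (g x) hax.1 hax.2
    obtain ⟨z', hz', z1', z2', z3'⟩ := c2 a (OrderDual.toDual (g x)) hax.2 hax.1
    refine ⟨z, Or.inl hz, z', Or.inr hz', ?_, ?_, ?_⟩
    · rw [hR]
      exact ⟨z2, z3⟩
    · rw [hR]
      exact ⟨z3', z2'⟩
    · intro w hw hw'
      rw [hR] at hw hw' ⊢
      have z1'' : h z' ≤ h a := z1'
      exact ⟨z1.trans_lt hw.1, hw'.2.trans_le z1''⟩

theorem weak_of_strict {R : A → X → Prop} {κ : Cardinal.{u}} (hR : StrictRep R κ) :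
    WeakRep R κ := by
  obtain ⟨L, i, D, hD, hd, hR⟩ := hR
  refine ⟨L, i, D, hD, ?_, hR⟩
  intro a b hab
  obtain ⟨d, h1, h2, h3⟩ := hd a b hab
  exact ⟨d, h1, h2.le, h3.le⟩

theorem noReversal_of_weakRep {R : A → X → Prop} {κ : Cardinal.{u}} (hR : WeakRep R κ) :
    NoReversal R := by
  obtain ⟨L, i, D, hD, hd, hR⟩ := hR
  exact noReversal_of_rep hR

/-! ### The real case -/

/-- A linear order with a countable order-dense subset embeds in the real line. -/
theorem exists_strictMono {L : Type u} [LinearOrder L] {D : Set L} (hD : D.Countable)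
    (hd : ∀ a b : L, a < b → ∃ d ∈ D, a < d ∧ d < b) : ∃ e : L → ℝ, StrictMono e := by
  classical
  have : Countable D := hD.to_subtype
  have hnt : Nontrivial (Set.Ioo (0 : ℝ) 1) :=
    ⟨⟨1 / 3, by norm_num, by norm_num⟩, ⟨2 / 3, by norm_num, by norm_num⟩, by
      intro h
      have := congrArg Subtype.val h
      norm_num at this⟩
  obtain ⟨ι⟩ := Order.embedding_from_countable_to_dense D (Set.Ioo (0 : ℝ) 1)
  let B : L → Set ℝ := fun a => insert 0 ((fun d : D => (ι d : ℝ)) '' {d : D | d.1 ≤ a})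
  have hB : ∀ a, BddAbove (B a) := by
    intro a
    refine ⟨1, ?_⟩
    rintro v (rfl | ⟨d, -, rfl⟩)
    · norm_num
    · exact (ι d).2.2.le
  refine ⟨fun a => sSup (B a), ?_⟩
  intro a b hab
  obtain ⟨d, hdD, d1, d2⟩ := hd a b hab
  obtain ⟨d', hdD', d1', d2'⟩ := hd d b d2
  have h1 : sSup (B a) ≤ ι ⟨d, hdD⟩ := by
    apply csSup_le ⟨0, Set.mem_insert _ _⟩
    rintro v (rfl | ⟨c, hc, rfl⟩)
    · exact (ι _).2.1.le
    · have hca : c.1 ≤ a := hc
      have hcd : c ≤ ⟨d, hdD⟩ := Subtype.coe_le_coe.1 (hca.trans d1.le)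
      exact ι.monotone hcd
  have h2 : (ι ⟨d, hdD⟩ : ℝ) < ι ⟨d', hdD'⟩ := ι.strictMono (show (⟨d, hdD⟩ : D) < ⟨d', hdD'⟩ from d1')
  have h3 : (ι ⟨d', hdD'⟩ : ℝ) ≤ sSup (B b) :=
    le_csSup (hB b) (Set.mem_insert_of_mem _ ⟨⟨d', hdD'⟩, d2'.le, rfl⟩)
  exact h1.trans_lt (h2.trans_le h3)

theorem rep_comp {L : Type v} {L' : Type*} [LinearOrder L] [LinearOrder L'] {R : A → X → Prop}
    (hR : Rep R L) {e : L → L'} (he : StrictMono e) : Rep R L' := by
  obtain ⟨f, h, g, hR⟩ := hR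
  refine ⟨e ∘ f, e ∘ h, e ∘ g, fun a x => ?_⟩
  rw [hR]
  exact and_congr he.lt_iff_lt.symm he.lt_iff_lt.symm

theorem real_iff (R : A → X → Prop) : Rep R ℝ ↔ NoReversal R ∧ Base R ℵ₀ := by
  constructor
  · intro h
    refine ⟨noReversal_of_rep h, base_of_weakRep le_rfl ?_⟩
    have hup : StrictMono (ULift.up : ℝ → ULift.{u} ℝ) := fun a b hab => hab
    refine ⟨ULift.{u} ℝ, inferInstance, Set.range (fun q : ULift.{u} ℚ => ULift.up (q.down : ℝ)),
      ?_, ?_, rep_comp h hup⟩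
    · refine mk_range_le.trans ?_
      rw [mk_uLift, Cardinal.mkRat, lift_aleph0]
    · intro a b hab
      obtain ⟨q, h1, h2⟩ := exists_rat_btwn (show a.down < b.down from hab)
      exact ⟨_, ⟨⟨q⟩, rfl⟩, h1.le, h2.le⟩
  · rintro ⟨h1, h2⟩
    obtain ⟨L, _, D, hD, hd, hR⟩ := strictRep_of le_rfl h1 h2
    obtain ⟨e, he⟩ := exists_strictMono (Cardinal.le_aleph0_iff_set_countable.1 hD) hd
    exact rep_comp hR he

/-! ### The hierarchy is strict -/

theorem sharp (κ κ' : Cardinal.{u}) (h : ℵ₀ ≤ κ') (hlt : κ' < κ) :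
    ∃ (Y : Type u) (R : Y → Y → Prop), StrictRep R κ ∧ ¬ WeakRep R κ' := by
  refine ⟨κ.out, fun a b => a = b, strictRep_of (h.trans hlt.le) ?_ ?_, ?_⟩
  · rw [noReversal_iff]
    have key : ∀ p q : κ.out × κ.out,
        Relation.ReflTransGen (Step (fun a b : κ.out => a = b)) p q → p = q := by
      intro p q hpq
      induction hpq with
      | refl => rfl
      | @tail q q' _ h2 ih =>
        rw [ih]
        obtain ⟨x, ⟨c1, c2, -, c4⟩ | ⟨c1, c2, -, c4⟩⟩ := h2
        · exact Prod.ext (c1.symm.trans c2) c4.symm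
        · exact Prod.ext c4.symm (c1.symm.trans c2)
    intro a b hab hs
    exact hab (congrArg Prod.fst (key _ _ hs))
  · refine ⟨Set.univ, ?_, fun a x hax => ⟨a, trivial, a, trivial, hax, hax, fun _ h _ => h⟩⟩
    rw [mk_univ, mk_out]
  · intro hw
    obtain ⟨Z, hZ, hb⟩ := base_of_weakRep h hw
    have hu : Z = Set.univ := by
      refine Set.eq_univ_of_forall fun a => ?_
      obtain ⟨z, hz, -, -, e, -⟩ := hb a a rfl
      exact e ▸ hz
    rw [hu, mk_univ, mk_out] at hZ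
    exact absurd hZ (not_le.2 hlt)

/-- **Representation by points in intervals: two sorts, all densities.** -/
theorem result :
    (∀ (A X : Type u) (R : A → X → Prop),
      (Rep R ℝ ↔ NoReversal R ∧ Base R ℵ₀) ∧
      (∀ κ : Cardinal.{u}, ℵ₀ ≤ κ →
        (StrictRep R κ ↔ NoReversal R ∧ Base R κ) ∧
        (WeakRep R κ ↔ NoReversal R ∧ Base R κ)) ∧
      ((∃ (L : Type u) (_ : LinearOrder L), Rep R L) ↔ NoReversal R)) ∧
    (∀ κ κ' : Cardinal.{u}, ℵ₀ ≤ κ' → κ' < κ →
      ∃ (Y : Type u) (R : Y → Y → Prop), StrictRep R κ ∧ ¬ WeakRep R κ') := by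
  refine ⟨fun A X R => ⟨real_iff R, fun κ hκ => ⟨⟨fun h => ?_, fun h => strictRep_of hκ h.1 h.2⟩,
    ⟨fun h => ⟨noReversal_of_weakRep h, base_of_weakRep hκ h⟩,
      fun h => weak_of_strict (strictRep_of hκ h.1 h.2)⟩⟩, ?_⟩, sharp⟩
  · exact ⟨noReversal_of_weakRep (weak_of_strict h), base_of_weakRep hκ (weak_of_strict h)⟩
  · constructor
    · rintro ⟨L, _, h⟩
      exact noReversal_of_rep h
    · intro h
      have hb : Base R (max ℵ₀ #A) := by
        refine ⟨Set.univ, ?_, fun a x hax => ⟨a, trivial, a, trivial, hax, hax, fun _ h _ => h⟩⟩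
        rw [mk_univ]
        exact le_max_right _ _
      obtain ⟨L, i, D, -, -, hR⟩ := strictRep_of (le_max_left _ _) h hb
      exact ⟨L, i, hR⟩

end Pool.Agent.Results.MP_a721b7_an.AllDensities
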